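import Pool.Agent.MP_57f271_lc.H27.Main

namespace Pool.Agent.Results.MP_57f271_lc.Alternation

open Pool.Agent.MP_57f271_lc.H18 Pool.Agent.MP_57f271_lc.H27

theorem result (C N : ℕ) : ∃ s, N ≤ s ∧ ∀ (M : Machine) (E : Encoding), DecidesSize M E s →
    ∃ S : System, S.size = s ∧ ∀ t b, M.Outputs (E.state S) t b → s ^ C < t ∨
      ∃ i ≤ t, ∃ j, Nat.log 2 (Nat.log 2 (Nat.log 2 s)) < 3 * level M E S i j :=
  main C N

end Pool.Agent.Results.MP_57f271_lc.Alternation
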