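import Pool.Agent.MP_57f271_lc.H62.Linear

/-! Integer roots of a polynomial computed from `1, X` by products and integer combinations. -/

namespace Pool.Agent.Results.MP_57f271_lc.IntegerRoots

theorem result (m : ℕ) (u : ℕ → Polynomial ℤ) (M : Finset ℕ) (w : ℕ → ℕ)
    (h0 : u 0 = 1) (h1 : u 1 = Polynomial.X) (hM : M ⊆ Finset.Icc 2 (m + 1))
    (hmul : ∀ k ∈ M, ∃ i < k, ∃ j < k, u k = u i * u j)
    (hlin : ∀ k ∈ Finset.Icc 2 (m + 1) \ M, ∃ c : ℕ → ℤ,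
      ∑ i ∈ Finset.range k, |c i| ≤ 2 ^ w k ∧ u k = ∑ i ∈ Finset.range k, c i • u i)
    (hne : u (m + 1) ≠ 0) (z : ℕ) (hz : z = (u (m + 1)).roots.toFinset.card) :
    2 * (z : ℝ) ^ 2 * Real.logb 2 ((z : ℝ) / 24) ≤
      9 * (∑ k ∈ Finset.Icc 2 (m + 1) \ M, (w k : ℝ)) * 2 ^ M.card := by
  subst hz
  have h : Pool.Agent.MP_57f271_lc.H62.ProgL m u M w := by
    refine ⟨h0, h1, fun k hk1 hk2 => ?_⟩
    split_ifs with hk
    · exact hmul k hk
    · exact hlin k (Finset.mem_sdiff.2 ⟨Finset.mem_Icc.2 ⟨hk1, hk2⟩, hk⟩)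
  have := h.card_roots_le (fun k hk => Finset.mem_Icc.1 (hM hk)) hne
  push_cast at this
  linarith

end Pool.Agent.Results.MP_57f271_lc.IntegerRoots
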