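import Pool.Agent.MP_57f271_lc.H4.Sharp

namespace Pool.Agent.Results.MP_57f271_lc.Ratios

open Pool.Agent.MP_57f271_lc.H18 Pool.Agent.MP_57f271_lc.H4S

theorem result (n d : ℕ) (hd : d ≤ n) (M : Machine) (E : Encoding)
    (hM : ∀ f : MvPolynomial (Fin n) ℂ, f.totalDegree = d →
      ∃ t b, M.Outputs (E.state (chain f)) t b ∧ (b = true ↔ (chain f).Feasible)) :
    ∃ f : MvPolynomial (Fin n) ℂ, f.totalDegree = d ∧
      ∀ t b D, M.Outputs (E.state (chain f)) t b →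
        tdeg (quots M E (chain f) D t) + 2 ≤ (∑ j ∈ Finset.range (d + 1), n.choose j : ℕ) →
        2 ^ n ≤ 125 * (∑ j ∈ Finset.range (d + 1), n.choose j) ^ 4 * t ^ 2 * (D + 2) :=
  Pool.Agent.MP_57f271_lc.H4.mainS n d hd M E hM

end Pool.Agent.Results.MP_57f271_lc.Ratios
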