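import Pool.Agent.MP_57f271_lc.H26.Main

open Pool.Agent.MP_57f271_lc.H18 Pool.Agent.MP_57f271_lc.H26

theorem Pool.Agent.Results.MP_57f271_lc.TimeSpace.result :
    ∀ j N₀ : ℕ, 2 ≤ j → ∃ (n k : ℕ) (d : Fin k → ℕ),
      N₀ ≤ Nat.card (Slot n k d) ∧ ∀ S : ℕ, (36 * (S + 1)) ^ j ≤ Nat.card (Slot n k d) →
        Hard n k d S ((Nat.card (Slot n k d) : ℝ) ^ (2 - 1 / j : ℝ) /
          (324 ^ j * (S + 1) ^ (j - 1))) :=
  main
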